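import Mathlib
import Pool.Agent.Results.MP_651af7_nt.ReducedDivisors
import Pool.Agent.Y854.GM.Win

/-! # Vojta's inequality for ALL algebraic points of degree at most `r` with height in windows

`D` runs through all the reduced effective divisors over `ℚ` of the projective line (of any degree
`q ≥ 1`, its points need not be rational), `S` through all the finite sets of primes, `c` through the
reals; `h` is the absolute logarithmic height, so that the number of points `x` of degree `r` with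
`exp (h x) ^ (r (r + 1)) ≤ X` is of the order `X`. Let `v ≥ 1` be a sequence with exponent of
convergence at most `τ` (`1 / b` for `v k = (k + 1) ^ b`, and `0` for `v k = b ^ k`).

1. Let `r ≥ 1`, `ε ≥ 0` and `κ < 1`. For all `α > 0` outside a set of Hausdorff dimension at most
`(e + τ) / (1 - κ)`, `e = (r + max 0 (1 - (2 + ε) / r)) / (r + 1) < 1`, for all `D`, `S`, `c`, for all
large `k`: all the algebraic numbers `x` off `D`, of degree at most `r`, with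
`|exp (h x) ^ (r (r + 1)) - α v k| ≤ (v k) ^ κ` satisfy
`∑_{v ∈ S ∪ {∞}} λ_{D,v}(x) + h_K(x) - d(x) ≤ ε h(x) + c`.

2. For almost every `α > 0` this holds for all `r ≥ 1`, `ε ≥ 0` and `κ < 1 - e - τ` at once. -/

set_option autoImplicit false

open Polynomial IntermediateField Filter Topology MeasureTheory

namespace Pool.Agent.Results.MP_651af7_nt.HeightWindows

open ReducedDivisors (height lambdaInf lambdaP logDisc)

/-- the exponent of convergence of the sequence `v` is at most `τ` -/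
def ExpLe (v : ℕ → ℝ) (τ : ℝ) : Prop := ∀ t : ℝ, τ < t → Summable (fun n : ℕ => (v n) ^ (-t))

/-- the exponent of the exceptional points -/
noncomputable def e (r : ℕ) (ε : ℝ) : ℝ := (r + max 0 (1 - (2 + ε) / r)) / (r + 1)

/-- `G` and `q` give a reduced effective divisor of degree `q ≥ 1` over `ℚ` -/
def Divisor (G : ℤ[X]) (q : ℕ) : Prop :=
  1 ≤ q ∧ Squarefree (G.map (Int.castRingHom ℚ)) ∧ G.natDegree ≤ q ∧ q ≤ G.natDegree + 1

/-- For all divisors `D` (given by `G` and `q`), all finite sets `S` of primes and all `c`, and for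
all large `k`, all the algebraic numbers `x` off `D` of degree at most `r` (with the irreducible
polynomial `f` over `ℤ`) with `|exp (h x) ^ (r (r + 1)) - α v k| ≤ (v k) ^ κ` satisfy the
inequality. -/
def Law (v : ℕ → ℝ) (r : ℕ) (ε κ α : ℝ) : Prop :=
  ∀ (q : ℕ) (G : ℤ[X]), Divisor G q → ∀ S : Finset ℕ, (∀ p ∈ S, p.Prime) → ∀ c : ℝ,
    ∃ k₀ : ℕ, ∀ k : ℕ, k₀ ≤ k → ∀ (x : ℂ) (f : ℤ[X]), Irreducible f → 1 ≤ f.natDegree →
      f.natDegree ≤ r → aeval x f = 0 → aeval x G ≠ 0 →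
      |Real.exp (height f) ^ (r * (r + 1)) - α * v k| ≤ (v k) ^ κ →
        lambdaInf G q f + ∑ p ∈ S, lambdaP p G q f + (-2) * height f - logDisc x ≤
          ε * height f + c

lemma height_neg (f : ℤ[X]) : height (-f) = height f := by
  unfold height
  have h1 : (-(f.map (Int.castRingHom ℂ))).mahlerMeasure =
      (f.map (Int.castRingHom ℂ)).mahlerMeasure := by
    have h2 : -(f.map (Int.castRingHom ℂ)) = C (-1) * f.map (Int.castRingHom ℂ) := by
      rw [C_neg, C_1, neg_one_mul]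
    rw [h2, mahlerMeasure_mul, mahlerMeasure_const, norm_neg, norm_one, one_mul]
  rw [Polynomial.map_neg, natDegree_neg, h1]

/-- two irreducible integral polynomials with a common root have the same height -/
lemma height_unique {f g : ℤ[X]} (hf : Irreducible f) (hg : Irreducible g) (hf1 : 1 ≤ f.natDegree)
    (hg1 : 1 ≤ g.natDegree) {x : ℂ} (hfx : aeval x f = 0) (hgx : aeval x g = 0) :
    height f = height g := by
  have hpf : f.IsPrimitive := hf.isPrimitive (by omega)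
  have hpg : g.IsPrimitive := hg.isPrimitive (by omega)
  have hif : Irreducible (f.map (algebraMap ℤ ℚ)) :=
    (hpf.irreducible_iff_irreducible_map_fraction_map).1 hf
  have hig : Irreducible (g.map (algebraMap ℤ ℚ)) :=
    (hpg.irreducible_iff_irreducible_map_fraction_map).1 hg
  have hfx' : aeval x (f.map (algebraMap ℤ ℚ)) = 0 := by rw [aeval_map_algebraMap]; exact hfx
  have hgx' : aeval x (g.map (algebraMap ℤ ℚ)) = 0 := by rw [aeval_map_algebraMap]; exact hgx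
  have hint : IsIntegral ℚ x := by
    rw [← isAlgebraic_iff_isIntegral]
    exact ⟨f.map (algebraMap ℤ ℚ), hif.ne_zero, hfx'⟩
  have hm1 : minpoly ℚ x ∣ f.map (algebraMap ℤ ℚ) := minpoly.dvd ℚ x hfx'
  have hm2 : minpoly ℚ x ∣ g.map (algebraMap ℤ ℚ) := minpoly.dvd ℚ x hgx'
  have hass1 : Associated (minpoly ℚ x) (f.map (algebraMap ℤ ℚ)) :=
    (minpoly.irreducible hint).associated_of_dvd hif hm1
  have hass2 : Associated (minpoly ℚ x) (g.map (algebraMap ℤ ℚ)) :=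
    (minpoly.irreducible hint).associated_of_dvd hig hm2
  have hdvd : f.map (algebraMap ℤ ℚ) ∣ g.map (algebraMap ℤ ℚ) := (hass1.symm.trans hass2).dvd
  have hdvd2 : g.map (algebraMap ℤ ℚ) ∣ f.map (algebraMap ℤ ℚ) := (hass2.symm.trans hass1).dvd
  have h1 : f ∣ g := (IsPrimitive.Int.dvd_iff_map_cast_dvd_map_cast f g hpf).2 hdvd
  have h2 : g ∣ f := (IsPrimitive.Int.dvd_iff_map_cast_dvd_map_cast g f hpg).2 hdvd2
  have hassoc : Associated f g := associated_of_dvd_dvd h1 h2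
  obtain ⟨u, hu⟩ := hassoc
  obtain ⟨w, hw, hwu⟩ := Polynomial.isUnit_iff.1 u.isUnit
  rcases Int.isUnit_iff.1 hw with h | h
  · rw [← hu, ← hwu, h, C_1, mul_one]
  · rw [← hu, ← hwu, h, C_neg, C_1, mul_neg, mul_one, height_neg]

open Classical in
/-- the height of an algebraic number -/
noncomputable def hgt (x : ℂ) : ℝ :=
  if h : ∃ f : ℤ[X], Irreducible f ∧ 1 ≤ f.natDegree ∧ aeval x f = 0 then height h.choose else 0

lemma hgt_eq {f : ℤ[X]} (hf : Irreducible f) (hf1 : 1 ≤ f.natDegree) {x : ℂ}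
    (hfx : aeval x f = 0) : hgt x = height f := by
  have h : ∃ f : ℤ[X], Irreducible f ∧ 1 ≤ f.natDegree ∧ aeval x f = 0 := ⟨f, hf, hf1, hfx⟩
  unfold hgt
  rw [dif_pos h]
  exact height_unique h.choose_spec.1 hf h.choose_spec.2.1 hf1 h.choose_spec.2.2 hfx

lemma e_nonneg (r : ℕ) (ε : ℝ) : 0 ≤ e r ε := by
  unfold e
  have := le_max_left 0 (1 - (2 + ε) / (r : ℝ))
  positivity

lemma e_lt_one (r : ℕ) (hr : 1 ≤ r) {ε : ℝ} (hε : 0 ≤ ε) : e r ε < 1 := by
  unfold e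
  have hr0 : (0 : ℝ) < r := by exact_mod_cast hr
  rw [div_lt_one (by positivity)]
  have h1 : 0 < (2 + ε) / (r : ℝ) := by positivity
  have h2 : max 0 (1 - (2 + ε) / (r : ℝ)) < 1 := max_lt one_pos (by linarith)
  linarith

lemma expo_le {r d q : ℕ} (hd : 1 ≤ d) (hdr : d ≤ r) (hq : 1 ≤ q) {ε : ℝ} (hε : 0 ≤ ε) :
    (d : ℝ) * d + d * max 0 (1 - (2 + ε) / (min q d : ℕ)) ≤ e r ε * (r * (r + 1)) := by
  have hd0 : (0 : ℝ) < d := by exact_mod_cast hd
  have hr0 : (0 : ℝ) < r := by exact_mod_cast (by omega : 0 < r)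
  have hdr' : (d : ℝ) ≤ r := by exact_mod_cast hdr
  have hm1 : 1 ≤ min q d := le_min hq hd
  have hm0 : (0 : ℝ) < (min q d : ℕ) := by exact_mod_cast hm1
  have hmd : ((min q d : ℕ) : ℝ) ≤ d := by exact_mod_cast min_le_right q d
  have h1 : (2 + ε) / (d : ℝ) ≤ (2 + ε) / (min q d : ℕ) :=
    div_le_div_of_nonneg_left (by linarith) hm0 hmd
  have h2 : (d : ℝ) * max 0 (1 - (2 + ε) / (min q d : ℕ)) ≤ max 0 ((d : ℝ) - (2 + ε)) := by
    calc (d : ℝ) * max 0 (1 - (2 + ε) / (min q d : ℕ)) ≤ d * max 0 (1 - (2 + ε) / (d : ℝ)) :=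
          mul_le_mul_of_nonneg_left (max_le_max le_rfl (by linarith)) hd0.le
      _ = max 0 ((d : ℝ) - (2 + ε)) := by
          rw [mul_max_of_nonneg _ _ hd0.le, mul_zero, mul_sub, mul_one, mul_div_cancel₀ _ hd0.ne']
  have h3 : e r ε * (r * (r + 1)) = (r : ℝ) * r + max 0 ((r : ℝ) - (2 + ε)) := by
    have h4 : (r : ℝ) * max 0 (1 - (2 + ε) / (r : ℝ)) = max 0 ((r : ℝ) - (2 + ε)) := by
      rw [mul_max_of_nonneg _ _ hr0.le, mul_zero, mul_sub, mul_one, mul_div_cancel₀ _ hr0.ne']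
    rw [← h4]
    unfold e
    field_simp
  rw [h3]
  have h5 : max 0 ((d : ℝ) - (2 + ε)) ≤ max 0 ((r : ℝ) - (2 + ε)) :=
    max_le_max le_rfl (by linarith)
  nlinarith

/-- one divisor, one degree -/
lemma one (r d q : ℕ) (hd : 1 ≤ d) (hdr : d ≤ r) (G : ℤ[X]) (hG : Divisor G q) (S : Finset ℕ)
    (hS : ∀ p ∈ S, p.Prime) (ε c : ℝ) (hε : 0 ≤ ε) {v : ℕ → ℝ} {τ κ : ℝ}
    (hv : ∀ k, 1 ≤ v k) (hτ : 0 ≤ τ) (hE : ExpLe v τ) (hκ : κ < 1) :
    ∃ E : Set ℝ, dimH E ≤ ENNReal.ofReal ((e r ε + τ) / (1 - κ)) ∧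
      ∀ α : ℝ, 0 < α → α ∉ E → ∃ k₀ : ℕ, ∀ k : ℕ, k₀ ≤ k → ∀ (x : ℂ) (f : ℤ[X]), Irreducible f →
      f.natDegree = d → aeval x f = 0 → aeval x G ≠ 0 →
      |Real.exp (height f) ^ (r * (r + 1)) - α * v k| ≤ (v k) ^ κ →
        lambdaInf G q f + ∑ p ∈ S, lambdaP p G q f + (-2) * height f - logDisc x ≤
          ε * height f + c := by
  have hr : 1 ≤ r := hd.trans hdr
  have hr0 : (0 : ℝ) < r := by exact_mod_cast hr
  have hN0 : (0 : ℝ) < (r : ℝ) * ((r : ℝ) + 1) := by positivity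
  obtain ⟨E, hE1, hE2⟩ := Pool.Agent.Y854.GM.windows
    {x : ℂ | ∃ f : ℤ[X], Irreducible f ∧ f.natDegree = d ∧ aeval x f = 0 ∧ aeval x G ≠ 0 ∧
      ¬ (lambdaInf G q f + ∑ p ∈ S, lambdaP p G q f + (-2) * height f - logDisc x ≤
          ε * height f + c)}
    (fun x => Real.exp (hgt x) ^ (r * (r + 1))) hv hτ hE (e_nonneg r ε) hκ (by
      intro δ hδ
      obtain ⟨M, hM⟩ := ReducedDivisors.result d q hd hG.1 G hG.2.1 hG.2.2.1 hG.2.2.2 S hS ε c
        ((r : ℝ) * ((r : ℝ) + 1) * δ) (by positivity)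
      refine ⟨|M|, fun X hX => ?_⟩
      have hX0 : 0 < X := by linarith
      have hB1 : 1 ≤ X ^ (1 / ((r : ℝ) * ((r : ℝ) + 1))) := Real.one_le_rpow hX (by positivity)
      have hB0 : 0 < X ^ (1 / ((r : ℝ) * ((r : ℝ) + 1))) := by linarith
      obtain ⟨T, hT1, hT2⟩ := hM _ hB1
      have hsub : {x : ℂ | x ∈ {x : ℂ | ∃ f : ℤ[X], Irreducible f ∧ f.natDegree = d ∧
          aeval x f = 0 ∧ aeval x G ≠ 0 ∧
          ¬ (lambdaInf G q f + ∑ p ∈ S, lambdaP p G q f + (-2) * height f - logDisc x ≤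
            ε * height f + c)} ∧ Real.exp (hgt x) ^ (r * (r + 1)) ≤ X} ⊆ (T : Set ℂ) := by
        rintro x ⟨⟨f, hf, hfd, hfx, hGx, hn⟩, hX2⟩
        by_contra hxT
        refine hn (hT2 x f ⟨hf, hfd, hfx, ?_, hGx⟩ (fun h => hxT (Finset.mem_coe.2 h)))
        rw [hgt_eq hf (by omega) hfx, ← Real.exp_nat_mul, ← Real.le_log_iff_exp_le hX0] at hX2
        rw [Real.log_rpow hX0, one_div, inv_mul_eq_div, le_div_iff₀ hN0]
        push_cast at hX2
        linarith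
      refine ⟨T.finite_toSet.subset hsub, ?_⟩
      calc (({x : ℂ | x ∈ {x : ℂ | ∃ f : ℤ[X], Irreducible f ∧ f.natDegree = d ∧
          aeval x f = 0 ∧ aeval x G ≠ 0 ∧
          ¬ (lambdaInf G q f + ∑ p ∈ S, lambdaP p G q f + (-2) * height f - logDisc x ≤
            ε * height f + c)} ∧ Real.exp (hgt x) ^ (r * (r + 1)) ≤ X}.ncard : ℕ) : ℝ)
          ≤ T.card := by
            rw [← Set.ncard_coe_finset]
            exact_mod_cast Set.ncard_le_ncard hsub T.finite_toSet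
        _ ≤ M * (X ^ (1 / ((r : ℝ) * ((r : ℝ) + 1)))) ^ ((d : ℝ) * d +
              d * max 0 (1 - (2 + ε) / (min q d : ℕ)) + (r : ℝ) * ((r : ℝ) + 1) * δ) := hT1
        _ ≤ |M| * (X ^ (1 / ((r : ℝ) * ((r : ℝ) + 1)))) ^ ((d : ℝ) * d +
              d * max 0 (1 - (2 + ε) / (min q d : ℕ)) + (r : ℝ) * ((r : ℝ) + 1) * δ) :=
            mul_le_mul_of_nonneg_right (le_abs_self M) (Real.rpow_nonneg hB0.le _)
        _ ≤ |M| * (X ^ (1 / ((r : ℝ) * ((r : ℝ) + 1)))) ^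
              (e r ε * (r * (r + 1)) + (r : ℝ) * ((r : ℝ) + 1) * δ) := by
            refine mul_le_mul_of_nonneg_left (Real.rpow_le_rpow_of_exponent_le hB1 ?_) (abs_nonneg M)
            have := expo_le hd hdr hG.1 hε
            linarith
        _ = |M| * X ^ (e r ε + δ) := by
            rw [← Real.rpow_mul hX0.le]
            congr 2
            field_simp)
  refine ⟨E, hE1, fun α hα hαE => ?_⟩
  obtain ⟨k₀, hk⟩ := hE2 α hα hαE
  refine ⟨k₀, fun k hk0 x f hf hfd hfx hGx hw => ?_⟩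
  by_contra hcon
  rw [← hgt_eq hf (by omega) hfx] at hw
  exact absurd hw (not_le.2 (hk k hk0 x ⟨f, hf, hfd, hfx, hGx, hcon⟩))

lemma countable_polys : Countable ℤ[X] := by
  have h : Function.Injective (fun f : ℤ[X] => (f.support.toList, f.support.toList.map f.coeff)) := by
    intro f g h
    rw [Prod.mk.injEq] at h
    obtain ⟨h1, h2⟩ := h
    have hs : f.support = g.support := by
      rw [← Finset.toList_toFinset f.support, h1, Finset.toList_toFinset]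
    ext n
    by_cases hn : n ∈ f.support
    · rw [← h1] at h2
      exact List.map_inj_left.1 h2 n (Finset.mem_toList.2 hn)
    · rw [notMem_support_iff.1 hn, notMem_support_iff.1 (hs ▸ hn)]
  exact h.countable

theorem law (r : ℕ) (hr : 1 ≤ r) (ε : ℝ) (hε : 0 ≤ ε) (v : ℕ → ℝ) (τ κ : ℝ)
    (hv : ∀ k, 1 ≤ v k) (hτ : 0 ≤ τ) (hE : ExpLe v τ) (hκ : κ < 1) :
    ∃ E : Set ℝ, dimH E ≤ ENNReal.ofReal ((e r ε + τ) / (1 - κ)) ∧
      ∀ α : ℝ, 0 < α → α ∉ E → Law v r ε κ α := by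
  haveI := countable_polys
  have h : ∀ p : (ℕ × ℕ × ℤ[X]) × (Finset ℕ × ℕ),
      ∃ E : Set ℝ, dimH E ≤ ENNReal.ofReal ((e r ε + τ) / (1 - κ)) ∧
      ∀ α : ℝ, 0 < α → α ∉ E → 1 ≤ p.1.1 → p.1.1 ≤ r → Divisor p.1.2.2 p.1.2.1 →
      (∀ l ∈ p.2.1, l.Prime) →
      ∃ k₀ : ℕ, ∀ k : ℕ, k₀ ≤ k → ∀ (x : ℂ) (f : ℤ[X]), Irreducible f →
      f.natDegree = p.1.1 → aeval x f = 0 → aeval x p.1.2.2 ≠ 0 →
      |Real.exp (height f) ^ (r * (r + 1)) - α * v k| ≤ (v k) ^ κ →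
        lambdaInf p.1.2.2 p.1.2.1 f + ∑ l ∈ p.2.1, lambdaP l p.1.2.2 p.1.2.1 f +
          (-2) * height f - logDisc x ≤ ε * height f + (-(p.2.2 : ℝ)) := by
    rintro ⟨⟨d, q, G⟩, S, j⟩
    by_cases hc : 1 ≤ d ∧ d ≤ r ∧ Divisor G q ∧ ∀ l ∈ S, l.Prime
    · obtain ⟨hd, hdr, hG, hS⟩ := hc
      obtain ⟨E, h1, h2⟩ := one r d q hd hdr G hG S hS ε (-(j : ℝ)) hε hv hτ hE hκ
      exact ⟨E, h1, fun α hα hαE _ _ _ _ => h2 α hα hαE⟩
    · exact ⟨∅, by simp, fun α _ _ h1 h2 h3 h4 => absurd ⟨h1, h2, h3, h4⟩ hc⟩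
  choose E hE1 hE2 using h
  refine ⟨⋃ p, E p, ?_, fun α hα hαE q G hG S hS c => ?_⟩
  · rw [dimH_iUnion]
    exact iSup_le hE1
  · obtain ⟨j, hj⟩ := exists_nat_ge (-c)
    have h1 : ∀ d : ℕ, ∃ k₀ : ℕ, 1 ≤ d → d ≤ r → ∀ k : ℕ, k₀ ≤ k → ∀ (x : ℂ) (f : ℤ[X]),
        Irreducible f → f.natDegree = d → aeval x f = 0 → aeval x G ≠ 0 →
        |Real.exp (height f) ^ (r * (r + 1)) - α * v k| ≤ (v k) ^ κ →
        lambdaInf G q f + ∑ l ∈ S, lambdaP l G q f +
          (-2) * height f - logDisc x ≤ ε * height f + c := by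
      intro d
      by_cases hd : 1 ≤ d ∧ d ≤ r
      · obtain ⟨k₀, hk⟩ := hE2 ⟨⟨d, q, G⟩, S, j⟩ α hα
          (fun h => hαE (Set.mem_iUnion.2 ⟨_, h⟩)) hd.1 hd.2 hG hS
        refine ⟨k₀, fun _ _ k hk0 x f hf hfd hfx hGx hw =>
          (hk k hk0 x f hf hfd hfx hGx hw).trans ?_⟩
        simp only
        linarith
      · exact ⟨0, fun h1 h2 => absurd ⟨h1, h2⟩ hd⟩
    choose k₀ hk₀ using h1
    refine ⟨(Finset.range (r + 1)).sup k₀, fun k hk x f hf hf1 hfr hfx hGx hw => ?_⟩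
    exact hk₀ f.natDegree hf1 hfr k
      ((Finset.le_sup (f := k₀) (Finset.mem_range.2 (by omega))).trans hk) x f hf rfl hfx hGx hw

lemma height_nonneg {f : ℤ[X]} (hf : Irreducible f) : 0 ≤ height f := by
  unfold height
  refine div_nonneg (Real.log_nonneg ?_) (Nat.cast_nonneg _)
  exact Pool.Agent.H990R4.VJ.one_le_mm hf.ne_zero

lemma law_mono {v : ℕ → ℝ} (hv : ∀ k, 1 ≤ v k) {r : ℕ} {ε ε' κ κ' α : ℝ} (hε : ε' ≤ ε)
    (hκ : κ ≤ κ') (h : Law v r ε' κ' α) : Law v r ε κ α := by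
  intro q G hG S hS c
  obtain ⟨k₀, hk⟩ := h q G hG S hS c
  refine ⟨k₀, fun k hk0 x f hf hf1 hfr hfx hGx hw => (hk k hk0 x f hf hf1 hfr hfx hGx
    (hw.trans (Real.rpow_le_rpow_of_exponent_le (hv k) hκ))).trans ?_⟩
  have := height_nonneg hf
  nlinarith

theorem result (v : ℕ → ℝ) (τ : ℝ) (hv : ∀ k, 1 ≤ v k) (hτ : 0 ≤ τ) (hE : ExpLe v τ) :
    -- 1. the dimension of the exceptional set
    (∀ r : ℕ, 1 ≤ r → ∀ ε κ : ℝ, 0 ≤ ε → κ < 1 → e r ε < 1 ∧
      ∃ E : Set ℝ, dimH E ≤ ENNReal.ofReal ((e r ε + τ) / (1 - κ)) ∧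
        ∀ α : ℝ, 0 < α → α ∉ E → Law v r ε κ α) ∧
    -- 2. everything at once, for almost every amplitude
    (∀ᵐ α : ℝ, 0 < α → ∀ r : ℕ, 1 ≤ r → ∀ ε κ : ℝ, 0 ≤ ε → e r ε + τ + κ < 1 →
      Law v r ε κ α) := by
  have hpart1 : ∀ r : ℕ, 1 ≤ r → ∀ ε κ : ℝ, 0 ≤ ε → κ < 1 → e r ε < 1 ∧
      ∃ E : Set ℝ, dimH E ≤ ENNReal.ofReal ((e r ε + τ) / (1 - κ)) ∧
        ∀ α : ℝ, 0 < α → α ∉ E → Law v r ε κ α := fun r hr ε κ hε hκ =>
    ⟨e_lt_one r hr hε, law r hr ε hε v τ κ hv hτ hE hκ⟩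
  refine ⟨hpart1, ?_⟩
  have h : ∀ p : ℕ × (ℚ × ℚ), ∀ᵐ α : ℝ, 0 < α → 1 ≤ p.1 →
      (0 : ℝ) ≤ p.2.1 → e p.1 p.2.1 + τ + p.2.2 < 1 → Law v p.1 p.2.1 p.2.2 α := by
    rintro ⟨r, ⟨ε, κ⟩⟩
    by_cases hc : 1 ≤ r ∧ (0 : ℝ) ≤ ε ∧ e r ε + τ + κ < 1
    · obtain ⟨hr, hε, hlt⟩ := hc
      have he := e_nonneg r ε
      have hκ1 : (κ : ℝ) < 1 := by linarith
      obtain ⟨E, hE1, hE2⟩ := (hpart1 r hr ε κ hε hκ1).2
      have hnull : volume E = 0 := by
        have hdim : dimH E < 1 := by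
          refine lt_of_le_of_lt hE1 ?_
          rw [← ENNReal.ofReal_one]
          refine (ENNReal.ofReal_lt_ofReal_iff one_pos).2 ?_
          rw [div_lt_one (by linarith)]
          linarith
        have h1 : Measure.hausdorffMeasure (1 : ℝ) E = 0 := by
          have h2 : dimH E < ((1 : NNReal) : ENNReal) := by simpa using hdim
          have h3 := hausdorffMeasure_of_dimH_lt h2
          simpa using h3
        rwa [hausdorffMeasure_real] at h1
      have hae : ∀ᵐ α : ℝ, α ∉ E := by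
        rw [ae_iff]
        simpa using hnull
      filter_upwards [hae] with α hαE hα _ _ _
      exact hE2 α hα hαE
    · filter_upwards with α _ h1 h2 h3
      exact absurd ⟨h1, h2, h3⟩ hc
  filter_upwards [ae_all_iff.2 h] with α hα hα0 r hr ε κ hε hlt
  -- rational approximations
  have hr0 : (0 : ℝ) < r := by exact_mod_cast hr
  have hcont : Continuous (e r) := by
    unfold e
    fun_prop
  rcases hε.eq_or_lt with h0 | hpos
  · obtain ⟨κ', hκ1, hκ2⟩ := exists_rat_btwn (show κ < 1 - τ - e r ε by linarith)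
    have h5 := hα ⟨r, ⟨0, κ'⟩⟩ hα0 hr (by simp) (by
      simp only [Rat.cast_zero]
      rw [h0]
      linarith)
    refine law_mono hv ?_ hκ1.le h5
    simp only [Rat.cast_zero]
    exact hε
  · have hev : ∀ᶠ ε' : ℝ in 𝓝 ε, e r ε' + τ + κ < 1 := by
      have h1 : Continuous fun ε' : ℝ => e r ε' + τ + κ := by fun_prop
      exact h1.continuousAt.eventually (gt_mem_nhds hlt)
    obtain ⟨δ, hδ, hball⟩ := Metric.eventually_nhds_iff.1 hev
    obtain ⟨ε', hε1, hε2⟩ := exists_rat_btwn (show max 0 (ε - δ) < ε from max_lt hpos (by linarith))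
    have hε3 : 0 ≤ (ε' : ℝ) := (le_max_left _ _).trans hε1.le
    have hε4 : ε - δ < (ε' : ℝ) := lt_of_le_of_lt (le_max_right _ _) hε1
    have h3 := hball (y := (ε' : ℝ)) (by
      rw [Real.dist_eq, abs_sub_comm, abs_of_pos (by linarith)]
      linarith)
    obtain ⟨κ', hκ1, hκ2⟩ := exists_rat_btwn (show κ < 1 - τ - e r ε' by linarith)
    have h5 := hα ⟨r, ⟨ε', κ'⟩⟩ hα0 hr hε3 (by
      simp only
      linarith)
    exact law_mono hv hε2.le hκ1.le h5

end Pool.Agent.Results.MP_651af7_nt.HeightWindows
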