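import Mathlib
import Pool.Agent.Results.MP_651af7_nt.QuadraticPoints
import Pool.Agent.H107.MetricFam

/-!
# Vojta's inequality for the quadratic points near almost every real number

For almost all real `z`: for each reduced divisor `D` of the projective line over `ℚ`, each finite set `S` of places,
each `ε > 0` and `σ > max 0 ((4 - 2 ε) / 3)` all quadratic `x` with `|x - z| ≤ exp (- σ h(x))` satisfy Vojta's
inequality `m_{S,D}(x) - 2 h(x) - d(x) ≤ ε h(x) + O(1)`. (Infinitely many quadratic `x` are as near to `z` if `σ < 6`.)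
-/

set_option autoImplicit false

namespace Pool.Agent.Results.MP_651af7_nt.NearAlmostEveryPoint

open Polynomial IntermediateField MeasureTheory

/-- The absolute logarithmic height `(log M(f)) / deg f` of the roots of an irreducible primitive
`f` (`M` is the Mahler measure). -/
noncomputable def height (f : ℤ[X]) : ℝ :=
  Real.log (f.map (Int.castRingHom ℂ)).mahlerMeasure / f.natDegree

/-- `λ_{D,∞}(x)` for the divisor `D` of degree `q` given by `G`: the average over the conjugates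
`z` of `x`, i.e. the roots of `f`, of `log (max(1,|z|)^q / |G(z)|)`. -/
noncomputable def lambdaInf (G : ℤ[X]) (q : ℕ) (f : ℤ[X]) : ℝ :=
  ((f.map (Int.castRingHom ℂ)).roots.map fun z =>
    Real.log (max 1 ‖z‖ ^ q / ‖(G.map (Int.castRingHom ℂ)).eval z‖)).sum / f.natDegree

/-- `λ_{D,p}(x)`, the average over the conjugates `z` of `x` over `ℚ_p` of
`log (max(1,|z|_p)^q / |G(z)|_p)`; for primitive `f` the sum over the conjugates is
`-log |Res(f,G)|_p`, with `Res` the resultant for the degrees `deg f` and `q`. -/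
noncomputable def lambdaP (p : ℕ) (G : ℤ[X]) (q : ℕ) (f : ℤ[X]) : ℝ :=
  (padicValInt p (resultant f G f.natDegree q) : ℝ) * Real.log p / f.natDegree

open Classical in
/-- The logarithmic discriminant `d(x)` of the field `ℚ(x)`. -/
noncomputable def logDisc (x : ℂ) : ℝ :=
  if _ : NumberField ℚ⟮x⟯ then
    Real.log |(NumberField.discr ℚ⟮x⟯ : ℝ)| / Module.finrank ℚ ℚ⟮x⟯ else 0

/-- `x` is a quadratic number with minimal polynomial `f` over `ℤ` -/
def Quadratic (x : ℂ) (f : ℤ[X]) : Prop := Irreducible f ∧ f.natDegree = 2 ∧ aeval x f = 0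

/-- `G` is squarefree and defines with the degree `q` the reduced divisor `D` of degree `q` of the projective line: the
roots of `G`, and infinity if `deg G = q - 1`; `S` is a finite set of primes -/
def Admissible (q : ℕ) (G : ℤ[X]) (S : Finset ℕ) : Prop :=
  1 ≤ q ∧ Squarefree (G.map (Int.castRingHom ℚ)) ∧ G.natDegree ≤ q ∧ q ≤ G.natDegree + 1 ∧ ∀ p ∈ S, p.Prime

/-- `m_{S,D}(x) + h_K(x) - d(x)`, for the places in `S` and infinity -/
noncomputable def excess (q : ℕ) (G : ℤ[X]) (S : Finset ℕ) (x : ℂ) (f : ℤ[X]) : ℝ :=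
  lambdaInf G q f + ∑ p ∈ S, lambdaP p G q f + (-2) * height f - logDisc x

lemma prim {x : ℂ} {f : ℤ[X]} (hf : Quadratic x f) : f.IsPrimitive :=
  hf.1.isPrimitive (by rw [hf.2.1]; norm_num)

lemma dvd_of {x : ℂ} {f g : ℤ[X]} (hf : Quadratic x f) (hg : Quadratic x g) : f ∣ g := by
  rw [IsPrimitive.Int.dvd_iff_map_cast_dvd_map_cast f g (prim hf)]
  have h1 : Irreducible (f.map (Int.castRingHom ℚ)) :=
    (IsPrimitive.Int.irreducible_iff_irreducible_map_cast (prim hf)).1 hf.1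
  have h2 : aeval x (f.map (Int.castRingHom ℚ)) = 0 := by
    rw [← hf.2.2]
    simp [aeval_def, eval₂_map]
    congr 1
  have h3 : aeval x (g.map (Int.castRingHom ℚ)) = 0 := by
    rw [← hg.2.2]
    simp [aeval_def, eval₂_map]
    congr 1
  have h4 := minpoly.eq_of_irreducible h1 h2
  have h5 : minpoly ℚ x ∣ g.map (Int.castRingHom ℚ) := minpoly.dvd ℚ x h3
  rw [← h4] at h5
  exact dvd_of_mul_right_dvd h5

lemma height_unique {x : ℂ} {f g : ℤ[X]} (hf : Quadratic x f) (hg : Quadratic x g) : height f = height g := by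
  obtain ⟨u, hu⟩ : Associated f g := associated_of_dvd_dvd (dvd_of hf hg) (dvd_of hg hf)
  obtain ⟨r, hr1, hr2⟩ := Polynomial.isUnit_iff.1 u.isUnit
  have h1 : ‖((r : ℤ) : ℂ)‖ = 1 := by
    rcases Int.isUnit_iff.1 hr1 with h | h <;> rw [h] <;> simp
  unfold height
  rw [hf.2.1, hg.2.1, ← hu, ← hr2, Polynomial.map_mul, mahlerMeasure_mul, Polynomial.map_C, eq_intCast,
    mahlerMeasure_const, h1, mul_one]

lemma height_nonneg {x : ℂ} {f : ℤ[X]} (hf : Quadratic x f) : 0 ≤ height f := by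
  unfold height
  exact div_nonneg (Real.log_nonneg (one_le_mahlerMeasure_of_ne_zero hf.1.ne_zero)) (Nat.cast_nonneg _)

open Classical in
/-- a minimal polynomial -/
noncomputable def mp (x : ℂ) : ℤ[X] := if h : ∃ f, Quadratic x f then h.choose else 0

lemma mp_spec {x : ℂ} {f : ℤ[X]} (hf : Quadratic x f) : Quadratic x (mp x) := by
  unfold mp
  have h : ∃ f, Quadratic x f := ⟨f, hf⟩
  rw [dif_pos h]
  exact h.choose_spec

/-- the multiplicative height -/
noncomputable def H (x : ℂ) : ℝ := max 1 (Real.exp (height (mp x)))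

lemma one_le_H (x : ℂ) : 1 ≤ H x := le_max_left _ _

lemma H_eq {x : ℂ} {f : ℤ[X]} (hf : Quadratic x f) : H x = Real.exp (height f) := by
  unfold H
  rw [height_unique (mp_spec hf) hf]
  exact max_eq_right (Real.one_le_exp (height_nonneg hf))

/-- the quadratic numbers off `D` with `m_{S,D}(x) - 2 h(x) - d(x) > ε h(x) + c` -/
def Viol (q : ℕ) (G : ℤ[X]) (S : Finset ℕ) (ε c : ℝ) : Set ℂ :=
  {x | ∃ f, Quadratic x f ∧ aeval x G ≠ 0 ∧ ε * height f + c < excess q G S x f}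

lemma count {q : ℕ} {G : ℤ[X]} {S : Finset ℕ} (hA : Admissible q G S) {ε : ℝ} (hε : 0 < ε) (c : ℝ) :
    ∀ δ : ℝ, 0 < δ → ∃ C : ℝ, ∀ X : ℝ, 1 ≤ X → {x | x ∈ Viol q G S ε c ∧ H x ≤ X}.Finite ∧
      ({x | x ∈ Viol q G S ε c ∧ H x ≤ X}.ncard : ℝ) ≤ C * X ^ (max 0 ((4 - 2 * ε) / 3) + δ) := by
  intro δ hδ
  obtain ⟨h1, h2, h3, h4, h5⟩ := hA
  obtain ⟨C, hC⟩ := Pool.Agent.Results.MP_651af7_nt.QuadraticPoints.result q h1 G h2 h3 h4 S h5 ε c δ hε hδ
  refine ⟨C, fun X hX => ?_⟩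
  obtain ⟨T, hT1, hT2⟩ := hC X hX
  have h6 : {x | x ∈ Viol q G S ε c ∧ H x ≤ X} ⊆ (T : Set ℂ) := by
    rintro x ⟨⟨f, g1, g2, g3⟩, g4⟩
    by_contra hxT
    have g5 : height f ≤ Real.log X := by
      rw [H_eq g1] at g4
      rwa [Real.le_log_iff_exp_le (by linarith)]
    have g6 := hT2 x f ⟨g1.1, g1.2.1, g1.2.2, g5, g2⟩ hxT
    exact absurd g6 (not_le.2 g3)
  refine ⟨(Finset.finite_toSet T).subset h6, ?_⟩
  have h7 := Set.ncard_le_ncard h6 (Finset.finite_toSet T)
  rw [Set.ncard_coe_finset] at h7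
  exact (by exact_mod_cast h7 : ({x | x ∈ Viol q G S ε c ∧ H x ≤ X}.ncard : ℝ) ≤ (T.card : ℝ)).trans hT1

lemma countable_poly : Countable ℤ[X] := by
  rw [← Cardinal.mk_le_aleph0_iff]
  refine Polynomial.cardinalMk_le_max.trans ?_
  simp

lemma rpow_exp (a σ : ℝ) : (Real.exp a) ^ (-σ) = Real.exp (-(σ * a)) := by
  rw [← Real.exp_mul]
  congr 1
  ring

/-- **Theorem.** (1) For almost all real `z`: for all admissible `q`, `G`, `S`, all `ε > 0`, `c` and all
`σ > max 0 ((4 - 2 ε) / 3)` only finitely many quadratic `x` off `D` with `|x - z| ≤ exp (- σ h(x))` violate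
`m_{S,D}(x) - 2 h(x) - d(x) ≤ ε h(x) + c`. (2) So for almost all real `z`, all admissible `q`, `G`, `S`, all `ε > 0` and
`σ ≥ 4 / 3` there is `C` such that ALL quadratic `x` off `D` with `|x - z| ≤ exp (- σ h(x))` satisfy
`m_{S,D}(x) - 2 h(x) - d(x) ≤ ε h(x) + C`. (3) For each map `φ` of `ℂ` to a metric space, `ε > 0`, `σ > 0` and `c` the
set of the `z` for which infinitely many quadratic `x` with `dist (φ x, z) ≤ exp (- σ h(x))` violate the inequality
has Hausdorff dimension at most `max 0 ((4 - 2 ε) / 3) / σ`. -/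
theorem result :
    (∀ᵐ z : ℝ, ∀ (q : ℕ) (G : ℤ[X]) (S : Finset ℕ), Admissible q G S → ∀ ε c σ : ℝ, 0 < ε →
      max 0 ((4 - 2 * ε) / 3) < σ →
        {x : ℂ | ∃ f, Quadratic x f ∧ aeval x G ≠ 0 ∧ ‖x - z‖ ≤ Real.exp (-(σ * height f)) ∧
          ¬ excess q G S x f ≤ ε * height f + c}.Finite) ∧
    (∀ᵐ z : ℝ, ∀ (q : ℕ) (G : ℤ[X]) (S : Finset ℕ), Admissible q G S → ∀ ε σ : ℝ, 0 < ε → 4 / 3 ≤ σ →
      ∃ C : ℝ, ∀ (x : ℂ) (f : ℤ[X]), Quadratic x f → aeval x G ≠ 0 → ‖x - z‖ ≤ Real.exp (-(σ * height f)) →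
        excess q G S x f ≤ ε * height f + C) ∧
    (∀ (M : Type) [MetricSpace M] (φ : ℂ → M) (q : ℕ) (G : ℤ[X]) (S : Finset ℕ), Admissible q G S →
      ∀ ε c σ : ℝ, 0 < ε → 0 < σ →
        dimH {z : M | {x : ℂ | ∃ f, Quadratic x f ∧ aeval x G ≠ 0 ∧ dist (φ x) z ≤ Real.exp (-(σ * height f)) ∧
          ¬ excess q G S x f ≤ ε * height f + c}.Infinite} ≤
          ENNReal.ofReal (max 0 ((4 - 2 * ε) / 3) / σ)) := by
  have main : ∀ᵐ z : ℝ, ∀ (q : ℕ) (G : ℤ[X]) (S : Finset ℕ), Admissible q G S → ∀ ε c σ : ℝ, 0 < ε →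
      max 0 ((4 - 2 * ε) / 3) < σ →
        {x : ℂ | ∃ f, Quadratic x f ∧ aeval x G ≠ 0 ∧ ‖x - z‖ ≤ Real.exp (-(σ * height f)) ∧
          ¬ excess q G S x f ≤ ε * height f + c}.Finite := by
    let J : Type := {j : ℕ × ℤ[X] × Finset ℕ // Admissible j.1 j.2.1 j.2.2} × ℤ
    have hcp : Countable ℤ[X] := countable_poly
    have hcJ : Countable J := inferInstance
    have hq : ∀ r : ℚ, ∀ᵐ z : ℝ, 0 < (r : ℝ) → ∀ σ : ℝ, max 0 ((4 - 2 * (r : ℝ)) / 3) < σ → ∀ j : J,
        {x | x ∈ Viol j.1.1.1 j.1.1.2.1 j.1.1.2.2 (r : ℝ) (j.2 : ℝ) ∧ |x.re - z| ≤ (H x) ^ (-σ)}.Finite := by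
      intro r
      by_cases hr : 0 < (r : ℝ)
      · have h := Pool.Agent.H107.ME.ae_family (fun x : ℂ => x.re) H one_le_H
          (s := max 0 ((4 - 2 * (r : ℝ)) / 3)) (le_max_left _ _) (J := J)
          (fun j => Viol j.1.1.1 j.1.1.2.1 j.1.1.2.2 (r : ℝ) (j.2 : ℝ)) (fun j ε hε => count j.1.2 hr _ ε hε)
        filter_upwards [h] with z hz _
        exact hz
      · exact Filter.Eventually.of_forall fun z h => absurd h hr
    rw [← MeasureTheory.ae_all_iff] at hq
    filter_upwards [hq] with z hz q G S hA ε c σ hε hσ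
    have hσ0 : 0 < σ := lt_of_le_of_lt (le_max_left _ _) hσ
    obtain ⟨r, hr1, hr2⟩ : ∃ r : ℚ, max 0 ((4 - 3 * σ) / 2) < (r : ℝ) ∧ (r : ℝ) < ε := by
      refine exists_rat_btwn (max_lt hε ?_)
      have := lt_of_le_of_lt (le_max_right 0 ((4 - 2 * ε) / 3)) hσ
      linarith
    have hr0 : 0 < (r : ℝ) := lt_of_le_of_lt (le_max_left _ _) hr1
    have hrσ : max 0 ((4 - 2 * (r : ℝ)) / 3) < σ := by
      refine max_lt hσ0 ?_
      have := lt_of_le_of_lt (le_max_right 0 ((4 - 3 * σ) / 2)) hr1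
      linarith
    obtain ⟨k, hk⟩ : ∃ k : ℤ, (k : ℝ) ≤ c := ⟨⌊c⌋, Int.floor_le c⟩
    refine (hz r hr0 σ hrσ (⟨(q, G, S), hA⟩, k)).subset ?_
    rintro x ⟨f, g1, g2, g3, g4⟩
    rw [not_le] at g4
    refine ⟨⟨f, g1, g2, ?_⟩, ?_⟩
    · have h1 := height_nonneg g1
      have h2 : (r : ℝ) * height f ≤ ε * height f := mul_le_mul_of_nonneg_right hr2.le h1
      show (r : ℝ) * height f + (k : ℝ) < _
      linarith
    · rw [H_eq g1, rpow_exp]
      refine le_trans ?_ g3
      have h1 := Complex.abs_re_le_norm (x - z)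
      rwa [Complex.sub_re, Complex.ofReal_re] at h1
  refine ⟨main, ?_, ?_⟩
  · filter_upwards [main] with z hz q G S hA ε σ hε hσ
    have hfin := hz q G S hA ε 0 σ hε (max_lt (by linarith) (by linarith))
    set V : Set ℂ := {x : ℂ | ∃ f, Quadratic x f ∧ aeval x G ≠ 0 ∧ ‖x - z‖ ≤ Real.exp (-(σ * height f)) ∧
          ¬ excess q G S x f ≤ ε * height f + 0} with hV
    -- finitely many polynomials of finitely many numbers
    have hfin2 : {p : ℂ × ℤ[X] | p.1 ∈ V ∧ Quadratic p.1 p.2}.Finite := by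
      have h1 : {p : ℂ × ℤ[X] | p.1 ∈ V ∧ Quadratic p.1 p.2} ⊆
          (fun x : ℂ => (x, mp x)) '' V ∪ (fun x : ℂ => (x, - mp x)) '' V := by
        rintro ⟨x, f⟩ ⟨g1, g2⟩
        have g1' : x ∈ V := g1
        have g2' : Quadratic x f := g2
        obtain ⟨u, hu⟩ : Associated (mp x) f :=
          associated_of_dvd_dvd (dvd_of (mp_spec g2') g2') (dvd_of g2' (mp_spec g2'))
        obtain ⟨r, hr1, hr2⟩ := Polynomial.isUnit_iff.1 u.isUnit
        rcases Int.isUnit_iff.1 hr1 with h | h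
        · left
          refine ⟨x, g1', ?_⟩
          simp only [Prod.mk.injEq, true_and]
          rw [← hu, ← hr2, h]
          simp
        · right
          refine ⟨x, g1', ?_⟩
          simp only [Prod.mk.injEq, true_and]
          rw [← hu, ← hr2, h]
          simp
      exact ((hfin.image _).union (hfin.image _)).subset h1
    obtain ⟨C, hC⟩ := (hfin2.image (fun p : ℂ × ℤ[X] => excess q G S p.1 p.2 - ε * height p.2)).bddAbove
    refine ⟨max C 0, fun x f g1 g2 g3 => ?_⟩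
    by_cases hx : excess q G S x f ≤ ε * height f + 0
    · have := le_max_right C 0
      linarith
    · have h1 := hC ⟨(x, f), ⟨⟨f, g1, g2, g3, hx⟩, g1⟩, rfl⟩
      have h2 := le_max_left C 0
      simp only at h1
      linarith
  · intro M _ φ q G S hA ε c σ hε hσ
    obtain ⟨E, h1, h2⟩ := Pool.Agent.H107.ME.dim_family φ H one_le_H
      (s := max 0 ((4 - 2 * ε) / 3)) (le_max_left _ _) hσ (J := Unit) (fun _ => Viol q G S ε c)
      (fun _ δ hδ => count hA hε c δ hδ)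
    refine (dimH_mono ?_).trans h1
    intro z hz
    by_contra hzE
    refine hz ((h2 z hzE ()).subset ?_)
    rintro x ⟨f, g1, g2, g3, g4⟩
    refine ⟨⟨f, g1, g2, not_le.1 g4⟩, ?_⟩
    rw [H_eq g1, rpow_exp]
    exact g3

end Pool.Agent.Results.MP_651af7_nt.NearAlmostEveryPoint
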