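import Pool.Agent.Results.MP_651af7_nt.ReducedDivisors
import Pool.Agent.V11300.PA.Eps
import Pool.Agent.V11326.WI

/-!
# Vojta's inequality for ALL the algebraic numbers of degree `r` whose minimal polynomials lie in given residue classes or
in given windows, and near almost every point

`D` runs through all the reduced effective divisors over `ℚ` of the projective line (of any degree `q ≥ 1`, its points need
not be rational), `S` through all the finite sets of primes, `c` through the reals; `r ≥ 1`, `ε ≥ 0` and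
`s = r + max 0 (1 - (2 + ε) / r) < r + 1`. A point `(x, f)` consists of an algebraic number `x` of degree `r` and an
irreducible polynomial `f` over `ℤ` with the root `x` (unique up to the sign), with the vector `(f_0, …, f_r)` of its
coefficients.

1. Residue classes. Let `p` be a prime number and `κ > 0`. For all `α ∈ ℤ_p ^ (r + 1)` outside of a set of Hausdorff
   dimension at most `κ s`, for all `D`, `S`, `c` and all large `m`, ALL the points off `D` with `|f_i| ≤ p ^ (κ m)` and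
   `f_i ≡ α_i mod p ^ m` satisfy `∑_{v ∈ S ∪ {∞}} λ_{D,v}(x) + h_K(x) - d(x) ≤ ε h(x) + c`.
2. Windows. Let `v_n ≥ 1` be a sequence with exponent of convergence at most `τ` (for example `v_n = 2 ^ n`, `τ = 0`),
   `θ < 1`. For all `α ∈ ℝ ^ (r + 1)` outside of a set of Hausdorff dimension at most `(s + τ) / (1 - θ)`, of measure zero if
   `τ + (r + 1) θ < r + 1 - s`, for all `D`, `S`, `c` and all large `n`, ALL the points off `D` with
   `|f_i - α_i v_n| ≤ v_n ^ θ` satisfy this inequality.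
3. Points near `z`. Let `φ` be any map of `ℂ` to a metric space, for example `ℂ`, and `σ > 0`. For all `z` outside of a set
   of Hausdorff dimension at most `r s / σ`, for all `D`, `S`, `c`, ALL but finitely many of the `x` of degree `r` off `D` with
   `dist (φ x) z ≤ exp (- σ h(x))` satisfy this inequality.
-/

set_option autoImplicit false

open Polynomial IntermediateField Filter Topology MeasureTheory

namespace Pool.Agent.Results.MP_651af7_nt.PrescribedMinimalPolynomials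

open ReducedDivisors (height lambdaInf lambdaP logDisc Pt)

/-- The exponent of convergence of the sequence `v` is at most `τ`: the sum of the `v_n ^ (-t)` converges for all
`t > τ`. -/
def ExpLe (v : ℕ → ℝ) (τ : ℝ) : Prop := ∀ t : ℝ, τ < t → Summable fun n => (v n) ^ (-t)

/-- `G`, `q` and `S`: the squarefree polynomial `G` and `q` give a reduced effective divisor `D` of degree `q ≥ 1` over `ℚ`,
the zeros of `G`, and infinity if `deg G = q - 1`; `S` is a finite set of primes -/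
def Admissible (q : ℕ) (G : ℤ[X]) (S : Finset ℕ) : Prop :=
  (1 ≤ q ∧ Squarefree (G.map (Int.castRingHom ℚ)) ∧ G.natDegree ≤ q ∧ q ≤ G.natDegree + 1) ∧ ∀ p ∈ S, p.Prime

/-- `x` is an algebraic number of degree `r`, not in the support of `D`, and `f` is an irreducible polynomial over `ℤ`
with the root `x` -/
def IsPoint (r : ℕ) (G : ℤ[X]) (x : ℂ) (f : ℤ[X]) : Prop :=
  Irreducible f ∧ f.natDegree = r ∧ aeval x f = 0 ∧ aeval x G ≠ 0

/-- Vojta's inequality `∑_{v ∈ S ∪ {∞}} λ_{D,v}(x) + h_K(x) - d(x) ≤ ε h(x) + c`, `h_K = -2 h` -/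
def Vojta (q : ℕ) (G : ℤ[X]) (S : Finset ℕ) (ε c : ℝ) (x : ℂ) (f : ℤ[X]) : Prop :=
  lambdaInf G q f + ∑ p ∈ S, lambdaP p G q f + (-2) * height f - logDisc x ≤ ε * height f + c

/-- the exponent `r + max 0 (1 - (2 + ε) / r)` -/
noncomputable def expo (r : ℕ) (ε : ℝ) : ℝ := r + max 0 (1 - (2 + ε) / r)

/-- the exceptional points -/
def Viol (r q : ℕ) (G : ℤ[X]) (S : Finset ℕ) (ε c : ℝ) : Set (ℂ × ℤ[X]) :=
  {t | IsPoint r G t.1 t.2 ∧ ¬ Vojta q G S ε c t.1 t.2}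

lemma expo_nonneg (r : ℕ) (ε : ℝ) : 0 ≤ expo r ε := by
  unfold expo
  have := le_max_left 0 (1 - (2 + ε) / (r : ℝ))
  positivity

/-- an irreducible polynomial with a given root is unique up to the sign -/
lemma eq_or_neg {f g : ℤ[X]} (hf : Irreducible f) (hg : Irreducible g) (hf1 : 1 ≤ f.natDegree)
    (hg1 : 1 ≤ g.natDegree) {x : ℂ} (hfx : aeval x f = 0) (hgx : aeval x g = 0) : g = f ∨ g = -f := by
  have hpf : f.IsPrimitive := hf.isPrimitive (by omega)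
  have hpg : g.IsPrimitive := hg.isPrimitive (by omega)
  have hif : Irreducible (f.map (algebraMap ℤ ℚ)) :=
    (hpf.irreducible_iff_irreducible_map_fraction_map).1 hf
  have hig : Irreducible (g.map (algebraMap ℤ ℚ)) :=
    (hpg.irreducible_iff_irreducible_map_fraction_map).1 hg
  have hfx' : aeval x (f.map (algebraMap ℤ ℚ)) = 0 := by rw [aeval_map_algebraMap]; exact hfx
  have hgx' : aeval x (g.map (algebraMap ℤ ℚ)) = 0 := by rw [aeval_map_algebraMap]; exact hgx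
  have hint : IsIntegral ℚ x := by
    rw [← isAlgebraic_iff_isIntegral]
    exact ⟨f.map (algebraMap ℤ ℚ), hif.ne_zero, hfx'⟩
  have hm1 : minpoly ℚ x ∣ f.map (algebraMap ℤ ℚ) := minpoly.dvd ℚ x hfx'
  have hm2 : minpoly ℚ x ∣ g.map (algebraMap ℤ ℚ) := minpoly.dvd ℚ x hgx'
  have hass1 : Associated (minpoly ℚ x) (f.map (algebraMap ℤ ℚ)) :=
    (minpoly.irreducible hint).associated_of_dvd hif hm1
  have hass2 : Associated (minpoly ℚ x) (g.map (algebraMap ℤ ℚ)) :=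
    (minpoly.irreducible hint).associated_of_dvd hig hm2
  have hdvd : f.map (algebraMap ℤ ℚ) ∣ g.map (algebraMap ℤ ℚ) := (hass1.symm.trans hass2).dvd
  have hdvd2 : g.map (algebraMap ℤ ℚ) ∣ f.map (algebraMap ℤ ℚ) := (hass2.symm.trans hass1).dvd
  have h1 : f ∣ g := (IsPrimitive.Int.dvd_iff_map_cast_dvd_map_cast f g hpf).2 hdvd
  have h2 : g ∣ f := (IsPrimitive.Int.dvd_iff_map_cast_dvd_map_cast g f hpg).2 hdvd2
  obtain ⟨u, hu⟩ := associated_of_dvd_dvd h1 h2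
  obtain ⟨w, hw, hwu⟩ := Polynomial.isUnit_iff.1 u.isUnit
  rcases Int.isUnit_iff.1 hw with h | h
  · left
    rw [← hu, ← hwu, h, C_1, mul_one]
  · right
    rw [← hu, ← hwu, h, C_neg, C_1, mul_neg, mul_one]

/-- at most two polynomials for each number -/
lemma two (r : ℕ) (hr : 1 ≤ r) (x : ℂ) :
    {f : ℤ[X] | Irreducible f ∧ f.natDegree = r ∧ aeval x f = 0}.Finite ∧
      {f : ℤ[X] | Irreducible f ∧ f.natDegree = r ∧ aeval x f = 0}.ncard ≤ 2 := by
  rcases Set.eq_empty_or_nonempty {f : ℤ[X] | Irreducible f ∧ f.natDegree = r ∧ aeval x f = 0} with h | ⟨f, hf⟩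
  · rw [h]
    exact ⟨Set.finite_empty, by rw [Set.ncard_empty]; omega⟩
  · have hsub : {f : ℤ[X] | Irreducible f ∧ f.natDegree = r ∧ aeval x f = 0} ⊆ {f, -f} := by
      rintro g ⟨h1, h2, h3⟩
      exact eq_or_neg hf.1 h1 (by rw [hf.2.1]; exact hr) (by rw [h2]; exact hr) hf.2.2 h3
    have hfin : ({f, -f} : Set ℤ[X]).Finite := (Set.finite_singleton _).insert _
    exact ⟨hfin.subset hsub, (Set.ncard_le_ncard hsub hfin).trans (Set.ncard_insert_le _ _ |>.trans (by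
      rw [Set.ncard_singleton]))⟩

/-- the number of the exceptional points up to a given height -/
lemma pairs {r q : ℕ} (hr : 1 ≤ r) {G : ℤ[X]} {S : Finset ℕ} (hA : Admissible q G S) {ε : ℝ} (hε : 0 ≤ ε) (c δ : ℝ)
    (hδ : 0 < δ) : ∃ C : ℝ, 0 ≤ C ∧ ∀ B : ℝ, 1 ≤ B →
      {t | t ∈ Viol r q G S ε c ∧ height t.2 ≤ Real.log B}.Finite ∧
      ({t | t ∈ Viol r q G S ε c ∧ height t.2 ≤ Real.log B}.ncard : ℝ) ≤ C * B ^ (r * expo r ε + δ) := by
  obtain ⟨⟨hq, hG, hGq, hqG⟩, hS⟩ := hA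
  obtain ⟨C, hC⟩ := ReducedDivisors.result r q hr hq G hG hGq hqG S hS ε c δ hδ
  refine ⟨2 * |C|, by positivity, fun B hB => ?_⟩
  obtain ⟨T, hT1, hT2⟩ := hC B hB
  have hsub : {t | t ∈ Viol r q G S ε c ∧ height t.2 ≤ Real.log B} ⊆
      ⋃ x ∈ T, (fun f : ℤ[X] => (x, f)) '' {f : ℤ[X] | Irreducible f ∧ f.natDegree = r ∧ aeval x f = 0} := by
    rintro ⟨x, f⟩ ⟨⟨⟨h1, h2, h3, h4⟩, h5⟩, h6⟩
    have hx : x ∈ T := by
      by_contra hx
      exact h5 (hT2 x f ⟨h1, h2, h3, h6, h4⟩ hx)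
    exact Set.mem_biUnion (x := x) (Finset.mem_coe.2 hx) ⟨f, ⟨h1, h2, h3⟩, rfl⟩
  have hfin : (⋃ x ∈ T, (fun f : ℤ[X] => (x, f)) ''
      {f : ℤ[X] | Irreducible f ∧ f.natDegree = r ∧ aeval x f = 0}).Finite :=
    Set.Finite.biUnion (Finset.finite_toSet _) fun x _ => (two r hr x).1.image _
  refine ⟨hfin.subset hsub, ?_⟩
  have h1 := (Set.ncard_le_ncard hsub hfin).trans (Finset.set_ncard_biUnion_le _ _)
  have h2 : ∑ x ∈ T, ((fun f : ℤ[X] => (x, f)) ''
      {f : ℤ[X] | Irreducible f ∧ f.natDegree = r ∧ aeval x f = 0}).ncard ≤ ∑ _x ∈ T, 2 := by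
    refine Finset.sum_le_sum fun x _ => ?_
    rw [Set.ncard_image_of_injective _ fun a b h => (Prod.mk.inj h).2]
    exact (two r hr x).2
  rw [Finset.sum_const, smul_eq_mul] at h2
  have h3 : ({t | t ∈ Viol r q G S ε c ∧ height t.2 ≤ Real.log B}.ncard : ℝ) ≤ T.card * 2 := by
    exact_mod_cast h1.trans h2
  refine h3.trans ?_
  have hr0 : (0 : ℝ) < r := by exact_mod_cast hr
  have hm1 : 1 ≤ min q r := le_min hq hr
  have hm0 : (0 : ℝ) < (min q r : ℕ) := by exact_mod_cast hm1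
  have hmr : ((min q r : ℕ) : ℝ) ≤ r := by exact_mod_cast min_le_right q r
  have h4 : max 0 (1 - (2 + ε) / (min q r : ℕ)) ≤ max 0 (1 - (2 + ε) / (r : ℝ)) := by
    apply max_le_max le_rfl
    have : (2 + ε) / (r : ℝ) ≤ (2 + ε) / (min q r : ℕ) := div_le_div_of_nonneg_left (by linarith) hm0 hmr
    linarith
  have h5 : (r : ℝ) * r + r * max 0 (1 - (2 + ε) / (min q r : ℕ)) + δ ≤ r * expo r ε + δ := by
    unfold expo
    have := mul_le_mul_of_nonneg_left h4 hr0.le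
    linarith
  calc (T.card : ℝ) * 2 ≤ (C * B ^ ((r : ℝ) * r + r * max 0 (1 - (2 + ε) / (min q r : ℕ)) + δ)) * 2 := by linarith
    _ ≤ (|C| * B ^ (r * expo r ε + δ)) * 2 := by
        refine mul_le_mul_of_nonneg_right ?_ (by norm_num)
        exact mul_le_mul (le_abs_self C) (Real.rpow_le_rpow_of_exponent_le hB h5) (by positivity) (abs_nonneg C)
    _ = 2 * |C| * B ^ (r * expo r ε + δ) := by ring

/-- the height and the coefficients -/
lemma height_le {r : ℕ} (hr : 1 ≤ r) {f : ℤ[X]} (hf0 : f ≠ 0) (hd : f.natDegree = r) {T : ℝ}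
    (h : ∀ i : Fin (r + 1), |(f.coeff i : ℝ)| ≤ T) : height f ≤ Real.log (((r + 1) * T) ^ (1 / (r : ℝ))) := by
  have hr0 : (0 : ℝ) < r := by exact_mod_cast hr
  have hM1 : 1 ≤ (f.map (Int.castRingHom ℂ)).mahlerMeasure := one_le_mahlerMeasure_of_ne_zero hf0
  have hM : (f.map (Int.castRingHom ℂ)).mahlerMeasure ≤ (r + 1) * T := by
    refine (mahlerMeasure_le_sum_norm_coeff _).trans ?_
    rw [Polynomial.sum_over_range' _ (by simp) (r + 1) (by
      refine Nat.lt_succ_of_le ((natDegree_map_le).trans (by rw [hd])))]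
    calc ∑ a ∈ Finset.range (r + 1), ‖(f.map (Int.castRingHom ℂ)).coeff a‖ ≤ ∑ _a ∈ Finset.range (r + 1), T := by
          refine Finset.sum_le_sum fun a ha => ?_
          have h1 := h ⟨a, Finset.mem_range.1 ha⟩
          rw [coeff_map, eq_intCast, Complex.norm_intCast]
          exact h1
      _ = (r + 1) * T := by
          rw [Finset.sum_const, Finset.card_range, nsmul_eq_mul]
          push_cast
          ring
  have hpos : 0 < ((r : ℝ) + 1) * T := by linarith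
  unfold height
  rw [hd, Real.log_rpow hpos, div_eq_inv_mul, one_div]
  exact mul_le_mul_of_nonneg_left (Real.log_le_log (by linarith) hM) (inv_pos.2 hr0).le

/-- the number of the exceptional points with bounded coefficients -/
lemma coeffs {r q : ℕ} (hr : 1 ≤ r) {G : ℤ[X]} {S : Finset ℕ} (hA : Admissible q G S) {ε : ℝ} (hε : 0 ≤ ε) (c δ : ℝ)
    (hδ : 0 < δ) : ∃ C : ℝ, 0 ≤ C ∧ ∀ T : ℝ, 1 ≤ T →
      {t | t ∈ Viol r q G S ε c ∧ ∀ i : Fin (r + 1), |(t.2.coeff i : ℝ)| ≤ T}.Finite ∧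
      ({t | t ∈ Viol r q G S ε c ∧ ∀ i : Fin (r + 1), |(t.2.coeff i : ℝ)| ≤ T}.ncard : ℝ) ≤ C * T ^ (expo r ε + δ) := by
  have hr0 : (0 : ℝ) < r := by exact_mod_cast hr
  obtain ⟨C, hC0, hC⟩ := pairs hr hA hε c (r * δ) (by positivity)
  refine ⟨C * ((r : ℝ) + 1) ^ (expo r ε + δ), by positivity, fun T hT => ?_⟩
  have hB : (1 : ℝ) ≤ (((r : ℝ) + 1) * T) ^ (1 / (r : ℝ)) := Real.one_le_rpow (by nlinarith) (by positivity)
  obtain ⟨h1, h2⟩ := hC _ hB
  have hsub : {t | t ∈ Viol r q G S ε c ∧ ∀ i : Fin (r + 1), |(t.2.coeff i : ℝ)| ≤ T} ⊆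
      {t | t ∈ Viol r q G S ε c ∧ height t.2 ≤ Real.log ((((r : ℝ) + 1) * T) ^ (1 / (r : ℝ)))} := by
    rintro t ⟨h3, h4⟩
    exact ⟨h3, height_le hr h3.1.1.ne_zero h3.1.2.1 h4⟩
  refine ⟨h1.subset hsub, ?_⟩
  refine ((Nat.cast_le (α := ℝ)).2 (Set.ncard_le_ncard hsub h1)).trans (h2.trans (le_of_eq ?_))
  have hpos : 0 ≤ ((r : ℝ) + 1) * T := by nlinarith
  rw [← Real.rpow_mul hpos, mul_assoc, ← Real.mul_rpow (by positivity) (by linarith)]
  congr 2
  field_simp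

lemma countable_poly : Countable ℤ[X] := by
  rw [← Cardinal.mk_le_aleph0_iff]
  refine Polynomial.cardinalMk_le_max.trans ?_
  simp

/-- the data `D`, `S`, `c` with an integer `c` -/
abbrev J : Type := {j : ℕ × ℤ[X] × Finset ℕ // Admissible j.1 j.2.1 j.2.2} × ℤ

lemma countable_J : Countable J := by
  have := countable_poly
  infer_instance

lemma vojta_mono {r q : ℕ} {G : ℤ[X]} {S : Finset ℕ} {ε c c' : ℝ} (h : c' ≤ c) {x : ℂ} {f : ℤ[X]}
    (hp : IsPoint r G x f) (hv : ¬ Vojta q G S ε c x f) : (x, f) ∈ Viol r q G S ε c' := by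
  refine ⟨hp, fun h1 => hv ?_⟩
  unfold Vojta at h1 ⊢
  linarith

/-- **Theorem.** -/
theorem result (r : ℕ) (hr : 1 ≤ r) (ε : ℝ) (hε : 0 ≤ ε) :
    (∀ (p : ℕ) [Fact p.Prime] (κ : ℝ), 0 < κ →
      ∃ E : Set (Fin (r + 1) → ℤ_[p]), dimH E ≤ ENNReal.ofReal (κ * expo r ε) ∧
        ∀ α : Fin (r + 1) → ℤ_[p], α ∉ E → ∀ (q : ℕ) (G : ℤ[X]) (S : Finset ℕ), Admissible q G S → ∀ c : ℝ,
          ∃ m₀ : ℕ, ∀ m : ℕ, m₀ ≤ m → ∀ (x : ℂ) (f : ℤ[X]), IsPoint r G x f →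
            (∀ i : Fin (r + 1), |(f.coeff i : ℝ)| ≤ (p : ℝ) ^ (κ * m)) →
            (∀ i : Fin (r + 1), (p : ℤ_[p]) ^ m ∣ (f.coeff i : ℤ_[p]) - α i) → Vojta q G S ε c x f) ∧
    (∀ (v : ℕ → ℝ) (τ θ : ℝ), (∀ n, 1 ≤ v n) → 0 ≤ τ → ExpLe v τ → θ < 1 →
      ∃ E : Set (Fin (r + 1) → ℝ), dimH E ≤ ENNReal.ofReal ((expo r ε + τ) / (1 - θ)) ∧
        (τ + (r + 1) * θ < r + 1 - expo r ε → volume E = 0) ∧
        ∀ α : Fin (r + 1) → ℝ, α ∉ E → ∀ (q : ℕ) (G : ℤ[X]) (S : Finset ℕ), Admissible q G S → ∀ c : ℝ,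
          ∃ n₀ : ℕ, ∀ n : ℕ, n₀ ≤ n → ∀ (x : ℂ) (f : ℤ[X]), IsPoint r G x f →
            (∀ i : Fin (r + 1), |(f.coeff i : ℝ) - α i * v n| ≤ (v n) ^ θ) → Vojta q G S ε c x f) ∧
    (∀ (M : Type) [MetricSpace M] (φ : ℂ → M) (σ : ℝ), 0 < σ →
      ∃ E : Set M, dimH E ≤ ENNReal.ofReal (r * expo r ε / σ) ∧
        ∀ z : M, z ∉ E → ∀ (q : ℕ) (G : ℤ[X]) (S : Finset ℕ), Admissible q G S → ∀ c : ℝ,
          {x : ℂ | ∃ f : ℤ[X], IsPoint r G x f ∧ dist (φ x) z ≤ Real.exp (-(σ * height f)) ∧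
            ¬ Vojta q G S ε c x f}.Finite) := by
  have hr0 : (0 : ℝ) < r := by exact_mod_cast hr
  have hcJ := countable_J
  have he0 := expo_nonneg r ε
  refine ⟨fun p hp κ hκ => ?_, fun v τ θ hv hτ hE hθ => ?_, fun M _ φ σ hσ => ?_⟩
  · have hp1 : (1 : ℝ) < p := by exact_mod_cast hp.out.one_lt
    have hall : ∀ j : J, ∃ E : Set (Fin (r + 1) → ℤ_[p]), dimH E ≤ ENNReal.ofReal (κ * expo r ε) ∧
        ∀ α ∉ E, ∃ m₀ : ℕ, ∀ m : ℕ, m₀ ≤ m → ∀ t : ℂ × ℤ[X],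
          (∀ i : Fin (r + 1), |(t.2.coeff i : ℝ)| ≤ (p : ℝ) ^ (κ * m)) →
          (∀ i : Fin (r + 1), (p : ℤ_[p]) ^ m ∣ (t.2.coeff i : ℤ_[p]) - α i) →
          t ∉ Viol r j.1.1.1 j.1.1.2.1 j.1.1.2.2 ε (j.2 : ℝ) := by
      intro j
      obtain ⟨E, h1, h2⟩ := Pool.Agent.V11300.PA.general_eps (M := Fin (r + 1) → ℤ_[p]) (Q := ℂ × ℤ[X])
        (fun t => fun i : Fin (r + 1) => (t.2.coeff i : ℤ_[p]))
        (fun t => Finset.univ.sup fun i : Fin (r + 1) => (t.2.coeff i).natAbs) hp1 he0 hκ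
        (fun _ _ => Viol r j.1.1.1 j.1.1.2.1 j.1.1.2.2 ε (j.2 : ℝ)) (by
          intro δ hδ
          obtain ⟨C, -, hC⟩ := coeffs hr j.1.2 hε (j.2 : ℝ) δ hδ
          refine ⟨fun _ => C, fun _ _ T hT => ?_⟩
          have h3 := hC (T : ℝ) (by exact_mod_cast hT)
          have e : {t : ℂ × ℤ[X] | t ∈ Viol r j.1.1.1 j.1.1.2.1 j.1.1.2.2 ε (j.2 : ℝ) ∧
              (Finset.univ.sup fun i : Fin (r + 1) => (t.2.coeff i).natAbs) ≤ T} =
              {t : ℂ × ℤ[X] | t ∈ Viol r j.1.1.1 j.1.1.2.1 j.1.1.2.2 ε (j.2 : ℝ) ∧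
                ∀ i : Fin (r + 1), |(t.2.coeff i : ℝ)| ≤ (T : ℝ)} := by
            ext t
            simp only [Set.mem_ofPred_eq, Finset.sup_le_iff, Finset.mem_univ, forall_true_left]
            refine and_congr_right fun _ => forall_congr' fun i => ?_
            rw [← Int.cast_abs, Int.abs_eq_natAbs, Int.cast_natCast, Nat.cast_le]
          rw [e]
          exact h3)
      refine ⟨E, h1, fun α hα => ?_⟩
      obtain ⟨m₀, hm⟩ := h2 α hα 0
      refine ⟨m₀, fun m hmm t ht hd => hm m hmm t ?_ ?_⟩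
      · have h4 : (Finset.univ.sup fun i : Fin (r + 1) => (t.2.coeff i).natAbs) ≤ ⌊(p : ℝ) ^ (κ * m)⌋₊ := by
          refine Finset.sup_le fun i _ => Nat.le_floor ?_
          rw [Nat.cast_natAbs, Int.cast_abs]
          exact ht i
        exact (Nat.cast_le.2 h4).trans (Nat.floor_le (by positivity))
      · rw [dist_pi_le_iff (by positivity)]
        intro i
        rw [dist_eq_norm]
        exact Pool.Agent.V11300.PA.dist_le_of_dvd p (hd i)
    choose E hE1 hE2 using hall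
    refine ⟨⋃ j, E j, ?_, fun α hα q G S hA c => ?_⟩
    · rw [dimH_iUnion]
      exact iSup_le hE1
    · obtain ⟨m₀, hm⟩ := hE2 (⟨(q, G, S), hA⟩, ⌊c⌋) α fun h => hα (Set.mem_iUnion.2 ⟨_, h⟩)
      refine ⟨m₀, fun m hmm x f hx hb hd => ?_⟩
      by_contra hcon
      exact hm m hmm (x, f) hb hd (vojta_mono (Int.floor_le c) hx hcon)
  · have hall : ∀ j : J, ∃ E : Set (Fin (r + 1) → ℝ), dimH E ≤ ENNReal.ofReal ((expo r ε + τ) / (1 - θ)) ∧
        ∀ α : Fin (r + 1) → ℝ, α ∉ E → ∃ n₀ : ℕ, ∀ n : ℕ, n₀ ≤ n →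
          ∀ t ∈ Viol r j.1.1.1 j.1.1.2.1 j.1.1.2.2 ε (j.2 : ℝ),
            (v n) ^ θ < ‖(fun i : Fin (r + 1) => (t.2.coeff i : ℝ)) - v n • α‖ := by
      intro j
      refine Pool.Agent.V11326.WK.windowsK (E := Fin (r + 1) → ℝ) (T := ℂ × ℤ[X])
        (fun _ => Viol r j.1.1.1 j.1.1.2.1 j.1.1.2.2 ε (j.2 : ℝ))
        (fun _ t => fun i : Fin (r + 1) => (t.2.coeff i : ℝ)) hv hτ hE he0 hθ ?_
      intro A δ hδ
      obtain ⟨C, hC0, hC⟩ := coeffs hr j.1.2 hε (j.2 : ℝ) δ hδ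
      refine ⟨C * ((A : ℝ) + 1) ^ (expo r ε + δ), 0, fun n _ => ?_⟩
      have hv1 := hv n
      have hA : (0 : ℝ) ≤ A := Nat.cast_nonneg A
      have hX : 1 ≤ ((A : ℝ) + 1) * v n := by nlinarith
      obtain ⟨h1, h2⟩ := hC _ hX
      have hsub : {t : ℂ × ℤ[X] | t ∈ Viol r j.1.1.1 j.1.1.2.1 j.1.1.2.2 ε (j.2 : ℝ) ∧
          ‖(fun i : Fin (r + 1) => (t.2.coeff i : ℝ))‖ ≤ ((A : ℝ) + 1) * v n} ⊆
          {t : ℂ × ℤ[X] | t ∈ Viol r j.1.1.1 j.1.1.2.1 j.1.1.2.2 ε (j.2 : ℝ) ∧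
            ∀ i : Fin (r + 1), |(t.2.coeff i : ℝ)| ≤ ((A : ℝ) + 1) * v n} := by
        rintro t ⟨h3, h4⟩
        refine ⟨h3, fun i => ?_⟩
        rw [pi_norm_le_iff_of_nonneg (by linarith)] at h4
        exact h4 i
      refine ⟨h1.subset hsub, ?_⟩
      refine ((Nat.cast_le (α := ℝ)).2 (Set.ncard_le_ncard hsub h1)).trans (h2.trans (le_of_eq ?_))
      rw [Real.mul_rpow (by positivity) (by linarith), mul_assoc]
    choose E hE1 hE2 using hall
    have hdim : dimH (⋃ j, E j) ≤ ENNReal.ofReal ((expo r ε + τ) / (1 - θ)) := by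
      rw [dimH_iUnion]
      exact iSup_le hE1
    refine ⟨⋃ j, E j, hdim, fun hc => ?_, fun α hα q G S hA c => ?_⟩
    · have hcard : (Fintype.card (Fin (r + 1)) : ℝ) = r + 1 := by
        rw [Fintype.card_fin]
        push_cast
        ring
      refine Pool.Agent.V11326.WI.null (c := (r : ℝ) + 1 - expo r ε) (by rw [hcard]; linarith) hτ hθ ?_
        (by rw [hcard]; linarith)
      rw [hcard]
      have e : (r : ℝ) + 1 - ((r : ℝ) + 1 - expo r ε) + τ = expo r ε + τ := by ring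
      rw [e]
      exact hdim
    · obtain ⟨n₀, hn⟩ := hE2 (⟨(q, G, S), hA⟩, ⌊c⌋) α fun h => hα (Set.mem_iUnion.2 ⟨_, h⟩)
      refine ⟨n₀, fun n hnn x f hx hw => ?_⟩
      by_contra hcon
      refine absurd ?_ (not_le.2 (hn n hnn (x, f) (vojta_mono (Int.floor_le c) hx hcon)))
      rw [pi_norm_le_iff_of_nonneg (Real.rpow_nonneg (by linarith [hv n]) _)]
      intro i
      rw [Pi.sub_apply, Pi.smul_apply, smul_eq_mul, Real.norm_eq_abs, mul_comm (v n)]
      exact hw i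
  · obtain ⟨E, h1, h2⟩ := Pool.Agent.H107.ME.dim_family (fun t : ℂ × ℤ[X] => φ t.1)
      (fun t => max 1 (Real.exp (height t.2))) (fun t => le_max_left _ _) (s := r * expo r ε) (by positivity) hσ (J := J)
      (fun j => Viol r j.1.1.1 j.1.1.2.1 j.1.1.2.2 ε (j.2 : ℝ)) (by
        intro j δ hδ
        obtain ⟨C, -, hC⟩ := pairs hr j.1.2 hε (j.2 : ℝ) δ hδ
        refine ⟨C, fun X hX => ?_⟩
        obtain ⟨h3, h4⟩ := hC X hX
        have hsub : {t : ℂ × ℤ[X] | t ∈ Viol r j.1.1.1 j.1.1.2.1 j.1.1.2.2 ε (j.2 : ℝ) ∧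
            max 1 (Real.exp (height t.2)) ≤ X} ⊆
            {t : ℂ × ℤ[X] | t ∈ Viol r j.1.1.1 j.1.1.2.1 j.1.1.2.2 ε (j.2 : ℝ) ∧ height t.2 ≤ Real.log X} := by
          rintro t ⟨h5, h6⟩
          exact ⟨h5, (Real.le_log_iff_exp_le (by linarith)).2 ((le_max_right _ _).trans h6)⟩
        exact ⟨h3.subset hsub, ((Nat.cast_le (α := ℝ)).2 (Set.ncard_le_ncard hsub h3)).trans h4⟩)
    refine ⟨E, h1, fun z hz q G S hA c => ?_⟩
    have hfin := h2 z hz (⟨(q, G, S), hA⟩, ⌊c⌋)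
    refine (hfin.image Prod.fst).subset ?_
    rintro x ⟨f, hx, hd, hv⟩
    refine ⟨(x, f), ⟨vojta_mono (Int.floor_le c) hx hv, hd.trans (le_of_eq ?_)⟩, rfl⟩
    have hM1 : 1 ≤ (f.map (Int.castRingHom ℂ)).mahlerMeasure := one_le_mahlerMeasure_of_ne_zero hx.1.ne_zero
    have hh : 0 ≤ height f := by
      unfold height
      exact div_nonneg (Real.log_nonneg hM1) (Nat.cast_nonneg _)
    simp only
    rw [max_eq_right (Real.one_le_exp hh), ← Real.exp_mul]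
    congr 1
    ring

end Pool.Agent.Results.MP_651af7_nt.PrescribedMinimalPolynomials
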